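import Pool.Agent.Helper897_BS.CNT

/-!
# Bounded blocking sets of `PG(2,p)` are far from algebraic curves

Erdős asked whether, for all large primes `p`, the plane `PG(2,p)` has no set `B` of points with
`1 ≤ |B ∩ ℓ| ≤ 1000` for every line `ℓ`.  We show: for all `K` and `d` there is `c > 0` such that for
all large primes `p` and every set `B` of points of `PG(2,p)` with at most `K` points on every line,
and every curve `F = 0` of degree at most `d` over `𝔽_p`,

  (number of lines missing `B`) + `p` · (number of points of `B` off the curve) `≥ c p²`.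

In particular a `K`-bounded blocking set has at least `c p` points off every curve of degree `≤ d`;
no such set lies on a curve of bounded degree.
-/

set_option autoImplicit false

namespace Pool.Agent.Results.MP_6b99df_co.NearCurve

/-- The points of `PG(2,p)`: the one-dimensional subspaces of `𝔽_p³`. -/
abbrev Pt (p : ℕ) [Fact p.Prime] : Type := Projectivization (ZMod p) (Fin 3 → ZMod p)

/-- The lines of `PG(2,p)`: the two-dimensional subspaces of `𝔽_p³`. -/
def IsLine (p : ℕ) [Fact p.Prime] (ℓ : Submodule (ZMod p) (Fin 3 → ZMod p)) : Prop :=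
  Module.finrank (ZMod p) ℓ = 2

/-- The points of `B` on `ℓ` (a point lies on a line when it is contained in it). -/
def onLine {p : ℕ} [Fact p.Prime] (B : Set (Pt p)) (ℓ : Submodule (ZMod p) (Fin 3 → ZMod p)) :
    Set (Pt p) :=
  {P | P ∈ B ∧ P.submodule ≤ ℓ}

/-- Every line has at most `K` points of `B`. -/
def Thin {p : ℕ} [Fact p.Prime] (K : ℕ) (B : Set (Pt p)) : Prop :=
  ∀ ℓ, IsLine p ℓ → (onLine B ℓ).ncard ≤ K

/-- The lines without points of `B`. -/
def missed {p : ℕ} [Fact p.Prime] (B : Set (Pt p)) :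
    Set (Submodule (ZMod p) (Fin 3 → ZMod p)) :=
  {ℓ | IsLine p ℓ ∧ onLine B ℓ = ∅}

/-- The points of `B` off the curve `F = 0`. -/
def offCurve {p : ℕ} [Fact p.Prime] (B : Set (Pt p)) (F : MvPolynomial (Fin 3) (ZMod p)) :
    Set (Pt p) :=
  {P | P ∈ B ∧ MvPolynomial.eval P.rep F ≠ 0}

/-- For all `K`, `d` there are `c > 0` and `p₀` such that for all primes `p > p₀`, every set `B` of
points of `PG(2,p)` with at most `K` points on every line and every nonzero form `F` of degree at
most `d` over `𝔽_p`: the number of lines missing `B` plus `p` times the number of points of `B` with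
`F ≠ 0` is at least `c p²`. -/
theorem result (K d : ℕ) : ∃ c : ℝ, 0 < c ∧ ∃ p₀ : ℕ, ∀ (p : ℕ) [Fact p.Prime], p₀ < p →
    ∀ B : Set (Pt p), Thin K B →
    ∀ (e : ℕ) (F : MvPolynomial (Fin 3) (ZMod p)), e ≤ d → F.IsHomogeneous e → F ≠ 0 →
    c * (p : ℝ) ^ 2 ≤ ((missed B).ncard : ℝ) + p * ((offCurve B F).ncard : ℝ) := by
  obtain ⟨c, hc, p₀, h⟩ := Pool.Agent.Helper897.BS.near_curve K d
  refine ⟨c, hc, p₀, fun p _ hp B hB e F he hF h0 => ?_⟩
  have h1 := h p hp B hB e F he hF h0
  have h2 : missed B = {ℓ : Submodule (ZMod p) (Fin 3 → ZMod p) |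
      Module.finrank (ZMod p) ℓ = 2 ∧ ∀ P ∈ B, ¬ P.submodule ≤ ℓ} := by
    ext ℓ
    simp only [missed, IsLine, onLine, Set.mem_setOf_eq, Set.eq_empty_iff_forall_notMem, not_and]
  rw [h2]
  exact h1

end Pool.Agent.Results.MP_6b99df_co.NearCurve
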