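import Pool.Agent.Helper897_BS.WTS

/-!
# Weightings of sets with bounded line intersections in prime planes

Linear blocking sets of planes of non-prime order meet every line in 1 mod p points: the weights 1
on their points have equal nonzero sums over all lines.  We show that over prime fields a weighting
in characteristic p, of a set with boundedly many points on every line, whose sums are uniform
forces its support to miss a positive proportion of the lines in almost all directions, as soon as
the sums over the lines are uniform in a positive proportion of the directions.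
-/

set_option autoImplicit false

namespace Pool.Agent.Results.MP_6b99df_co.Weights

/-- Every line of the affine plane `𝔽_p²` has at most `K` points of `B`. -/
def Thin (p : ℕ) [Fact p.Prime] (K : ℕ) (B : Set (ZMod p × ZMod p)) : Prop :=
  ∀ a b c : ZMod p, (a ≠ 0 ∨ b ≠ 0) → {P | P ∈ B ∧ a * P.1 + b * P.2 + c = 0}.ncard ≤ K

/-- The sum of the weights `w` over the line `y = m x + t`, as a function of `t`, is a polynomial
of degree at most `(1 - ε) p` (for example it is the same for all `t`). -/
def Uniform (p : ℕ) [Fact p.Prime] (ε : ℝ) {k : Type} [Field k] [Algebra (ZMod p) k]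
    (w : ZMod p × ZMod p → k) (m : ZMod p) : Prop :=
  ∃ s : Polynomial k, (s.natDegree : ℝ) ≤ (1 - ε) * p ∧
    ∀ t : ZMod p, ∑ x : ZMod p, w (x, m * x + t) = s.eval (algebraMap (ZMod p) k t)

/-- For all `K` and `ε > 0` there is `M` such that for all primes `p > M`, every set `B ⊆ 𝔽_p²` with
at most `K` points on every line, every field `k` of characteristic `p` and every nonzero function
`w : 𝔽_p² → k` supported on `B`: if in at least `ε p` directions `m` the sums of `w` over the lines
`y = m x + t` are a polynomial of degree at most `(1 - ε) p` in `t`, then for all but at most `M`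
slopes `m` at least `p / M` lines of slope `m` miss the support of `w`. -/
theorem result (K : ℕ) (ε : ℝ) (hε : 0 < ε) : ∃ M : ℕ, ∀ (p : ℕ) [Fact p.Prime], M < p →
    ∀ B : Set (ZMod p × ZMod p), Thin p K B →
    ∀ (k : Type) [Field k] [Algebra (ZMod p) k] (w : ZMod p × ZMod p → k),
      (∀ P, w P ≠ 0 → P ∈ B) → (∃ P, w P ≠ 0) →
      ε * (p : ℝ) ≤ ({m : ZMod p | Uniform p ε w m}.ncard : ℝ) →
      {m : ZMod p | M * {t : ZMod p | ∀ x, w (x, m * x + t) = 0}.ncard < p}.ncard ≤ M := by
  obtain ⟨M, hM⟩ := Pool.Agent.Helper897.BS.weights K ε hε
  exact ⟨M, fun p _ hp B hB k _ _ w hw hne h => hM p hp B hB k w hw hne h⟩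

end Pool.Agent.Results.MP_6b99df_co.Weights
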